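import Mathlib

/-!
# A regular self 2-distance graph of odd degree

The graph of the icosahedron is `5`-regular and isomorphic to its `2`-distance graph.
The vertex `6 * s + i` with `s < 2`, `i < 5` stands for `i ∈ ℤ/5` on level `s`, and `6 * s + 5` for
the point at infinity on level `s`.
-/

set_option autoImplicit false

namespace Pool.Agent.Results.MP_325f40_co.Icosahedron

/-- The `2`-distance graph: same vertices, two of them adjacent exactly when their distance in `G`
is two.  (`SimpleGraph.dist` is `0` for vertices in different components, so such vertices are not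
adjacent.) -/
def twoDistanceGraph {V : Type*} (G : SimpleGraph V) : SimpleGraph V where
  Adj u v := G.dist u v = 2
  symm := ⟨fun u v h => by rw [SimpleGraph.dist_comm]; exact h⟩
  loopless := ⟨fun u h => by simp at h⟩

theorem dist_eq_two_iff {V : Type*} (G : SimpleGraph V) (u v : V) :
    G.dist u v = 2 ↔ u ≠ v ∧ ¬ G.Adj u v ∧ ∃ w, G.Adj u w ∧ G.Adj w v := by
  constructor
  · intro h
    refine ⟨?_, ?_, ?_⟩
    · rintro rfl; simp at h
    · intro hadj
      rw [SimpleGraph.dist_eq_one_iff_adj.2 hadj] at h
      omega
    · have hr : G.Reachable u v := by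
        by_contra hr
        rw [SimpleGraph.dist_eq_zero_of_not_reachable hr] at h
        omega
      obtain ⟨p, hp⟩ := hr.exists_walk_length_eq_dist
      rw [h] at hp
      cases p with
      | nil => simp at hp
      | cons h1 q =>
        cases q with
        | nil => simp at hp
        | cons h2 r =>
          cases r with
          | nil => exact ⟨_, h1, h2⟩
          | cons h3 s => simp at hp
  · rintro ⟨hne, hna, w, h1, h2⟩
    have hle : G.dist u v ≤ 2 := by
      have := SimpleGraph.dist_le (SimpleGraph.Walk.cons h1 (SimpleGraph.Walk.cons h2 .nil))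
      simpa using this
    have h0 : G.dist u v ≠ 0 := by
      intro h0
      have hr : G.Reachable u v := ⟨SimpleGraph.Walk.cons h1 (SimpleGraph.Walk.cons h2 .nil)⟩
      exact hne (hr.dist_eq_zero_iff.1 h0)
    have h1 : G.dist u v ≠ 1 := fun h => hna (SimpleGraph.dist_eq_one_iff_adj.1 h)
    omega

/-- Adjacency of the icosahedron. -/
def adj (u v : Fin 12) : Bool :=
  let s := u.val / 6
  let t := v.val / 6
  let i := u.val % 6
  let j := v.val % 6
  if i = 5 then (decide (j ≠ 5) && decide (s = t))
  else if j = 5 then decide (s = t)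
  else if s = t then (decide ((i + 1) % 5 = j) || decide ((j + 1) % 5 = i))
  else (decide ((i + 2) % 5 = j) || decide ((j + 2) % 5 = i))

/-- The icosahedron. -/
def ico : SimpleGraph (Fin 12) where
  Adj u v := adj u v = true
  symm := ⟨by decide⟩
  loopless := ⟨by decide⟩

instance : DecidableRel ico.Adj := fun u v => inferInstanceAs (Decidable (adj u v = true))

/-- The relabelling: `i` on level `s` goes to `2 i` on level `s`, infinity changes level. -/
def relabel (u : Fin 12) : Fin 12 :=
  if u.val % 6 = 5 then ⟨(u.val + 6) % 12, Nat.mod_lt _ (by norm_num)⟩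
  else ⟨6 * (u.val / 6) + (2 * (u.val % 6)) % 5, by have := u.2; omega⟩

/-- The inverse relabelling. -/
def unlabel (u : Fin 12) : Fin 12 :=
  if u.val % 6 = 5 then ⟨(u.val + 6) % 12, Nat.mod_lt _ (by norm_num)⟩
  else ⟨6 * (u.val / 6) + (3 * (u.val % 6)) % 5, by have := u.2; omega⟩

/-- The icosahedron is isomorphic to its `2`-distance graph. -/
def iso : ico ≃g twoDistanceGraph ico where
  toFun := relabel
  invFun := unlabel
  left_inv := by intro u; revert u; decide
  right_inv := by intro u; revert u; decide
  map_rel_iff' := by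
    intro a b
    show ico.dist (relabel a) (relabel b) = 2 ↔ ico.Adj a b
    rw [dist_eq_two_iff]
    revert a b
    decide

/-- There is a connected `5`-regular graph on twelve vertices (the icosahedron) that is isomorphic
to its `2`-distance graph; hence the statement that for odd `k` no `k`-regular graph is a self
`2`-distance graph is false. -/
theorem result :
    (∃ G : SimpleGraph (Fin 12), (∀ v, (G.neighborSet v).ncard = 5) ∧ G.Connected ∧
      Nonempty (twoDistanceGraph G ≃g G)) ∧
    ¬ (∀ k : ℕ, Odd k → ∀ (V : Type) [Finite V] (G : SimpleGraph V),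
        (∀ v, (G.neighborSet v).ncard = k) → IsEmpty (twoDistanceGraph G ≃g G)) := by
  have hreg : ∀ v, (ico.neighborSet v).ncard = 5 := by
    intro v
    rw [← Nat.card_coe_set_eq, Nat.card_eq_fintype_card, SimpleGraph.card_neighborSet_eq_degree]
    revert v
    decide
  refine ⟨⟨ico, hreg, ?_, ⟨iso.symm⟩⟩, fun h => ?_⟩
  · rw [SimpleGraph.connected_iff]
    refine ⟨?_, ⟨0⟩⟩
    have h5 : ∀ v, ico.Reachable 5 v := by
      have hd : ∀ v, v = 5 ∨ ico.Adj 5 v ∨ (∃ w, ico.Adj 5 w ∧ ico.Adj w v) ∨
          ∃ w x, ico.Adj 5 w ∧ ico.Adj w x ∧ ico.Adj x v := by decide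
      intro v
      rcases hd v with rfl | h | ⟨w, h1, h2⟩ | ⟨w, x, h1, h2, h3⟩
      · exact SimpleGraph.Reachable.refl _
      · exact h.reachable
      · exact h1.reachable.trans h2.reachable
      · exact (h1.reachable.trans h2.reachable).trans h3.reachable
    intro u v
    exact (h5 u).symm.trans (h5 v)
  · exact (h 5 (by decide) (Fin 12) ico hreg).false iso.symm

end Pool.Agent.Results.MP_325f40_co.Icosahedron
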